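import Mathlib

/-!
# Weights for the weighted `g_λ^*` inequality: the known necessary condition and the known sufficient
condition describe the same weights

Let `1 < λ ≤ 2` and `2 / λ < p < 2`.  Known: the weighted inequality `(∗)` for `g_λ^*` implies
`U ∈ A_p ∩ B_{λp/2}` (Muckenhoupt, Wheeden), and it follows from `U ∈ A_p ∩ B_q` for some
`q < min (λp/2) λ` (Strömberg, Torchinsky).  We prove that the condition `B_r` improves itself: a
weight in `B_r` belongs to `B_q` for some `q < r`, with an explicit range of `q` which depends only on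
`r` and on the constant of the weight.  Hence both classes are equal, and `(∗)` holds exactly for the
weights in `A_p ∩ B_{λp/2}`.
-/

set_option autoImplicit false

open MeasureTheory Set Filter
open scoped ENNReal NNReal Topology

namespace Pool.Agent.Results.MP_842e08_an.ClassesCoincide

/-- A weight: nonnegative and locally integrable. -/
def IsWeight (U : ℝ → ℝ) : Prop := (∀ x, 0 ≤ U x) ∧ LocallyIntegrable U volume

/-- The condition `A_r` with constant `C`:
`(1/|I| ∫_I U) (1/|I| ∫_I U^(-1/(r-1)))^(r-1) ≤ C` for all intervals `I = [a, b]`. -/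
def AWith (r : ℝ) (C : ℝ≥0) (U : ℝ → ℝ) : Prop := ∀ a b : ℝ, a < b →
  ((∫⁻ x in Icc a b, ENNReal.ofReal (U x)) / ENNReal.ofReal (b - a)) *
    ((∫⁻ x in Icc a b, ENNReal.ofReal (U x) ^ (-1 / (r - 1))) / ENNReal.ofReal (b - a)) ^ (r - 1) ≤ C

/-- `U ∈ A_r`. -/
def A (r : ℝ) (U : ℝ → ℝ) : Prop := ∃ C : ℝ≥0, AWith r C U

/-- The condition `B_r` with constant `C`: for every interval `I` with centre `c` and length `h`,
`∫ |I|^(r-1) U(x) / (|I|^r + |x - c|^r) dx ≤ C / |I| ∫_I U`. -/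
def BWith (r : ℝ) (C : ℝ≥0) (U : ℝ → ℝ) : Prop := ∀ c h : ℝ, 0 < h →
  ∫⁻ x, ENNReal.ofReal (h ^ (r - 1) * U x / (h ^ r + |x - c| ^ r)) ≤
    C / ENNReal.ofReal h * ∫⁻ x in Icc (c - h / 2) (c + h / 2), ENNReal.ofReal (U x)

/-- `U ∈ B_r`. -/
def B (r : ℝ) (U : ℝ → ℝ) : Prop := ∃ C : ℝ≥0, BWith r C U

/-- The Poisson integral `f(z, y)` of `f`. -/
noncomputable def poisson (f : ℝ → ℝ) (z y : ℝ) : ℝ :=
  1 / Real.pi * ∫ x, y * f (z - x) / (x ^ 2 + y ^ 2)

/-- `|∇ f(z, y)| ^ 2`. -/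
noncomputable def gradSq (f : ℝ → ℝ) (z y : ℝ) : ℝ :=
  (deriv (fun s => poisson f s y) z) ^ 2 + (deriv (fun t => poisson f z t) y) ^ 2

/-- The function `g_λ^*`. -/
noncomputable def gStar (lam : ℝ) (f : ℝ → ℝ) (x : ℝ) : ℝ≥0∞ :=
  (∫⁻ z, ∫⁻ y in Ioi (0 : ℝ), ENNReal.ofReal ((y / (|x - z| + y)) ^ lam * gradSq f z y)) ^
    (1 / 2 : ℝ)

/-- The weighted inequality `(∗)`. -/
def Star (lam p : ℝ) (U : ℝ → ℝ) : Prop := ∃ C : ℝ≥0, ∀ f : ℝ → ℝ, Measurable f →
  ∫⁻ x, ENNReal.ofReal (|f x| ^ p * U x) ≠ ⊤ →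
    ∫⁻ x, gStar lam f x ^ p * ENNReal.ofReal (U x) ≤ C * ∫⁻ x, ENNReal.ofReal (|f x| ^ p * U x)

/-! ### Proof -/

/-- mass of the interval of centre `c` and length `R` -/
noncomputable def mass (u : ℝ → ℝ≥0∞) (c R : ℝ) : ℝ≥0∞ := ∫⁻ x in Icc (c - R / 2) (c + R / 2), u x

noncomputable def G (r : ℝ) (u : ℝ → ℝ≥0∞) (c R : ℝ) : ℝ≥0∞ :=
  ∫⁻ x, u x * ENNReal.ofReal (1 / (R ^ r + |x - c| ^ r))

lemma mem_iff (x c R : ℝ) : x ∈ Icc (c - R / 2) (c + R / 2) ↔ |x - c| ≤ R / 2 := by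
  rw [abs_le, mem_Icc]
  constructor <;> intro h <;> constructor <;> linarith [h.1, h.2]

lemma den_pos {r R : ℝ} (hR : 0 < R) (t : ℝ) : 0 < R ^ r + |t| ^ r :=
  add_pos_of_pos_of_nonneg (Real.rpow_pos_of_pos hR _) (Real.rpow_nonneg (abs_nonneg _) _)

/-- the integral of the condition in terms of `G` -/
lemma int_eq (r : ℝ) {U : ℝ → ℝ} (hU : IsWeight U) (c h : ℝ) (hh : 0 < h) :
    ∫⁻ x, ENNReal.ofReal (h ^ (r - 1) * U x / (h ^ r + |x - c| ^ r)) =
      ENNReal.ofReal (h ^ (r - 1)) * G r (fun x => ENNReal.ofReal (U x)) c h := by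
  unfold G
  rw [← lintegral_const_mul' _ _ ENNReal.ofReal_ne_top]
  refine lintegral_congr fun x => ?_
  have h1 := den_pos (r := r) hh (x - c)
  rw [← ENNReal.ofReal_mul (hU.1 x), ← ENNReal.ofReal_mul (Real.rpow_nonneg hh.le _)]
  congr 1
  field_simp

/-- the key inequality -/
lemma key {r : ℝ} (hr : 1 ≤ r) {R t : ℝ} (hR : 0 < R) (ht0 : 0 ≤ t) (ht : t ≤ R / 2) :
    1 / ((2 * R) ^ r + t ^ r) + 1 / 8 * R ^ (-r) ≤ 1 / (R ^ r + t ^ r) := by
  have hRr : 0 < R ^ r := Real.rpow_pos_of_pos hR _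
  have h2 : (2 : ℝ) ≤ 2 ^ r := by
    calc (2 : ℝ) = 2 ^ (1 : ℝ) := by simp
      _ ≤ 2 ^ r := Real.rpow_le_rpow_of_exponent_le (by norm_num) hr
  have h2R : (2 * R) ^ r = 2 ^ r * R ^ r := Real.mul_rpow (by norm_num) hR.le
  have htr0 : 0 ≤ t ^ r := Real.rpow_nonneg ht0 _
  have htr : t ^ r ≤ R ^ r := Real.rpow_le_rpow ht0 (by linarith) (by linarith)
  rw [h2R, Real.rpow_neg hR.le]
  set X := R ^ r
  set a := (2 : ℝ) ^ r
  set s := t ^ r
  have hd1 : 0 < X + s := by positivity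
  have hd2 : 0 < a * X + s := by positivity
  have hkey : 1 / 8 * X⁻¹ ≤ 1 / (X + s) - 1 / (a * X + s) := by
    rw [div_sub_div _ _ hd1.ne' hd2.ne']
    have e : (1 * (a * X + s) - (X + s) * 1) = (a - 1) * X := by ring
    rw [e, le_div_iff₀ (by positivity)]
    have e2 : 1 / 8 * X⁻¹ * ((X + s) * (a * X + s)) ≤ 1 / 8 * X⁻¹ * ((2 * X) * (2 * a * X)) := by
      apply mul_le_mul_of_nonneg_left _ (by positivity)
      apply mul_le_mul _ _ hd2.le (by positivity)
      · linarith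
      · nlinarith
    refine e2.trans ?_
    have e3 : 1 / 8 * X⁻¹ * ((2 * X) * (2 * a * X)) = a / 2 * X := by
      field_simp
      ring
    rw [e3]
    nlinarith
  linarith

lemma mass_ne_top {U : ℝ → ℝ} (hU : IsWeight U) (c R : ℝ) :
    mass (fun x => ENNReal.ofReal (U x)) c R ≠ ⊤ := by
  have h := (hU.2.integrableOn_isCompact (isCompact_Icc (a := c - R / 2) (b := c + R / 2)))
  exact h.lintegral_lt_top.ne

lemma aem {U : ℝ → ℝ} (hU : IsWeight U) : AEMeasurable (fun x => ENNReal.ofReal (U x)) volume :=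
  hU.2.aestronglyMeasurable.aemeasurable.ennreal_ofReal

lemma measG (r R c : ℝ) : Measurable fun x : ℝ => ENNReal.ofReal (1 / (R ^ r + |x - c| ^ r)) := by
  fun_prop

/-- one step: `G(2R) + R^(-r) m(R) / 8 ≤ G(R)` -/
lemma step {r : ℝ} (hr : 1 ≤ r) {u : ℝ → ℝ≥0∞} (hu : AEMeasurable u volume) (c R : ℝ) (hR : 0 < R) :
    G r u c (2 * R) + ENNReal.ofReal (1 / 8 * R ^ (-r)) * mass u c R ≤ G r u c R := by
  unfold G mass
  have hm : AEMeasurable (fun x => u x * ENNReal.ofReal (1 / ((2 * R) ^ r + |x - c| ^ r))) volume :=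
    hu.mul (measG r (2 * R) c).aemeasurable
  rw [← lintegral_const_mul' _ _ ENNReal.ofReal_ne_top, ← lintegral_indicator measurableSet_Icc,
    ← lintegral_add_left' hm]
  refine lintegral_mono fun x => ?_
  by_cases hx : x ∈ Icc (c - R / 2) (c + R / 2)
  · simp only [indicator_of_mem hx]
    have h := key hr hR (abs_nonneg (x - c)) ((mem_iff x c R).1 hx)
    rw [mul_comm (ENNReal.ofReal (1 / 8 * R ^ (-r))), ← mul_add, ← ENNReal.ofReal_add]
    · exact mul_le_mul_right (ENNReal.ofReal_le_ofReal h) _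
    · exact (div_pos one_pos (den_pos (by linarith) _)).le
    · positivity
  · simp only [indicator_of_notMem hx, add_zero]
    refine mul_le_mul_right (ENNReal.ofReal_le_ofReal ?_) _
    apply one_div_le_one_div_of_le (den_pos hR _)
    have := Real.rpow_le_rpow hR.le (by linarith : R ≤ 2 * R) (by linarith : 0 ≤ r)
    linarith

lemma mass_le {r : ℝ} (hr : 0 ≤ r) (u : ℝ → ℝ≥0∞) (c R : ℝ) (hR : 0 < R) :
    mass u c R ≤ ENNReal.ofReal (2 * R ^ r) * G r u c R := by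
  unfold G mass
  rw [← lintegral_const_mul' _ _ ENNReal.ofReal_ne_top, ← lintegral_indicator measurableSet_Icc]
  refine lintegral_mono fun x => ?_
  by_cases hx : x ∈ Icc (c - R / 2) (c + R / 2)
  · simp only [indicator_of_mem hx]
    rw [mul_left_comm, ← ENNReal.ofReal_mul (by positivity)]
    refine le_mul_of_one_le_right zero_le ?_
    rw [ENNReal.one_le_ofReal, mul_one_div, le_div_iff₀ (den_pos hR _)]
    have h1 := (mem_iff x c R).1 hx
    have h2 := Real.rpow_le_rpow (abs_nonneg (x - c)) (h1.trans (by linarith : R / 2 ≤ R)) hr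
    linarith
  · simp [indicator_of_notMem hx]

/-- the condition `B_r` in terms of `G` -/
lemma G_le {r : ℝ} {C : ℝ≥0} {U : ℝ → ℝ} (hU : IsWeight U) (hB : BWith r C U) (c R : ℝ) (hR : 0 < R) :
    G r (fun x => ENNReal.ofReal (U x)) c R ≤
      C * (ENNReal.ofReal (R ^ (-r)) * mass (fun x => ENNReal.ofReal (U x)) c R) := by
  have h := hB c R hR
  rw [int_eq r hU c R hR] at h
  have h1 : ENNReal.ofReal (R ^ (1 - r)) * ENNReal.ofReal (R ^ (r - 1)) = 1 := by
    rw [← ENNReal.ofReal_mul (by positivity), ← Real.rpow_add hR]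
    simp
  have h2 : ENNReal.ofReal (R ^ (1 - r)) * (ENNReal.ofReal R)⁻¹ = ENNReal.ofReal (R ^ (-r)) := by
    rw [← ENNReal.ofReal_inv_of_pos hR, ← ENNReal.ofReal_mul (by positivity)]
    congr 1
    rw [← Real.rpow_neg_one, ← Real.rpow_add hR]
    congr 1
    ring
  calc G r (fun x => ENNReal.ofReal (U x)) c R
      = ENNReal.ofReal (R ^ (1 - r)) * (ENNReal.ofReal (R ^ (r - 1)) *
          G r (fun x => ENNReal.ofReal (U x)) c R) := by rw [← mul_assoc, h1, one_mul]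
    _ ≤ ENNReal.ofReal (R ^ (1 - r)) * (C / ENNReal.ofReal R *
          mass (fun x => ENNReal.ofReal (U x)) c R) := mul_le_mul_right h _
    _ = C * ((ENNReal.ofReal (R ^ (1 - r)) * (ENNReal.ofReal R)⁻¹) *
          mass (fun x => ENNReal.ofReal (U x)) c R) := by rw [div_eq_mul_inv]; ring
    _ = _ := by rw [h2]

/-- growth of the masses -/
lemma growth {r : ℝ} (hr : 1 ≤ r) {C : ℝ≥0} {U : ℝ → ℝ} (hU : IsWeight U) (hB : BWith r C U)
    (hC : 1 ≤ C) (c h : ℝ) (hh : 0 < h) (j : ℕ) :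
    mass (fun x => ENNReal.ofReal (U x)) c (2 ^ j * h) ≤
      ENNReal.ofReal (2 * C * ((2 : ℝ) ^ r * (1 - 1 / (8 * C))) ^ j) *
        mass (fun x => ENNReal.ofReal (U x)) c h := by
  set u : ℝ → ℝ≥0∞ := fun x => ENNReal.ofReal (U x) with hu
  set R : ℕ → ℝ := fun j => 2 ^ j * h with hRdef
  have hR : ∀ j, 0 < R j := fun j => by simp only [hRdef]; positivity
  have hR2 : ∀ j, R (j + 1) = 2 * R j := fun j => by simp only [hRdef]; ring
  have hmt : ∀ j, mass u c (R j) ≠ ⊤ := fun j => mass_ne_top hU c _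
  have hGt : ∀ j, G r u c (R j) ≠ ⊤ := fun j => by
    refine ne_top_of_le_ne_top ?_ (G_le hU hB c (R j) (hR j))
    exact ENNReal.mul_ne_top ENNReal.coe_ne_top (ENNReal.mul_ne_top ENNReal.ofReal_ne_top (hmt j))
  set g : ℕ → ℝ := fun j => (G r u c (R j)).toReal with hg
  set m : ℕ → ℝ := fun j => (mass u c (R j)).toReal with hm
  have hg0 : ∀ j, 0 ≤ g j := fun j => ENNReal.toReal_nonneg
  have hm0 : ∀ j, 0 ≤ m j := fun j => ENNReal.toReal_nonneg
  have hC1 : (1 : ℝ) ≤ C := by exact_mod_cast hC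
  have hC0 : (0 : ℝ) < C := by linarith
  -- the three inequalities
  have i1 : ∀ j, g (j + 1) + 1 / 8 * (R j) ^ (-r) * m j ≤ g j := fun j => by
    have h1 := step hr (aem hU) c (R j) (hR j)
    rw [← hR2 j] at h1
    have h2 := ENNReal.toReal_mono (hGt j) h1
    rw [ENNReal.toReal_add (hGt (j + 1)) (ENNReal.mul_ne_top ENNReal.ofReal_ne_top (hmt j)),
      ENNReal.toReal_mul, ENNReal.toReal_ofReal (by have := hR j; positivity)] at h2
    exact h2
  have i2 : ∀ j, g j ≤ C * ((R j) ^ (-r) * m j) := fun j => by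
    have h2 := ENNReal.toReal_mono (ENNReal.mul_ne_top ENNReal.coe_ne_top
      (ENNReal.mul_ne_top ENNReal.ofReal_ne_top (hmt j))) (G_le hU hB c (R j) (hR j))
    rw [ENNReal.toReal_mul, ENNReal.toReal_mul,
      ENNReal.toReal_ofReal (Real.rpow_nonneg (hR j).le _)] at h2
    exact h2
  have i3 : ∀ j, m j ≤ 2 * (R j) ^ r * g j := fun j => by
    have h2 := ENNReal.toReal_mono (ENNReal.mul_ne_top ENNReal.ofReal_ne_top (hGt j))
      (mass_le (by linarith) u c (R j) (hR j))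
    rw [ENNReal.toReal_mul, ENNReal.toReal_ofReal (by have := hR j; positivity)] at h2
    exact h2
  set θ : ℝ := 1 - 1 / (8 * C) with hθ
  have hθ0 : 0 ≤ θ := by
    rw [hθ, sub_nonneg, div_le_one (by positivity)]
    linarith
  have i4 : ∀ j, g (j + 1) ≤ θ * g j := fun j => by
    have h1 := i1 j
    have h2 := i2 j
    have h3 : 1 / (8 * C) * g j ≤ 1 / 8 * (R j) ^ (-r) * m j := by
      calc 1 / (8 * (C : ℝ)) * g j ≤ 1 / (8 * C) * (C * ((R j) ^ (-r) * m j)) :=
            mul_le_mul_of_nonneg_left h2 (by positivity)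
        _ = 1 / 8 * (R j) ^ (-r) * m j := by field_simp
    rw [hθ, sub_mul, one_mul]
    linarith
  have i5 : ∀ j, g j ≤ θ ^ j * g 0 := fun j => by
    induction j with
    | zero => simp
    | succ j ih =>
      calc g (j + 1) ≤ θ * g j := i4 j
        _ ≤ θ * (θ ^ j * g 0) := mul_le_mul_of_nonneg_left ih hθ0
        _ = θ ^ (j + 1) * g 0 := by ring
  have hR0 : R 0 = h := by simp [hRdef]
  have e1 : (R j) ^ r = ((2 : ℝ) ^ r) ^ j * h ^ r := by
    simp only [hRdef]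
    rw [Real.mul_rpow (by positivity) hh.le, ← Real.rpow_natCast, ← Real.rpow_mul (by norm_num),
      ← Real.rpow_natCast, ← Real.rpow_mul (by norm_num), mul_comm (j : ℝ) r]
  have hfin : m j ≤ 2 * C * ((2 : ℝ) ^ r * θ) ^ j * m 0 := by
    calc m j ≤ 2 * (R j) ^ r * g j := i3 j
      _ ≤ 2 * (R j) ^ r * (θ ^ j * g 0) :=
          mul_le_mul_of_nonneg_left (i5 j) (by have := hR j; positivity)
      _ ≤ 2 * (R j) ^ r * (θ ^ j * (C * ((R 0) ^ (-r) * m 0))) := by
          apply mul_le_mul_of_nonneg_left _ (by have := hR j; positivity)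
          exact mul_le_mul_of_nonneg_left (i2 0) (pow_nonneg hθ0 _)
      _ = 2 * C * ((2 : ℝ) ^ r * θ) ^ j * m 0 := by
          rw [e1, hR0, Real.rpow_neg hh.le, mul_pow]
          have : h ^ r ≠ 0 := (Real.rpow_pos_of_pos hh _).ne'
          field_simp
  have hnn : 0 ≤ 2 * (C : ℝ) * ((2 : ℝ) ^ r * θ) ^ j := by positivity
  rw [← ENNReal.ofReal_toReal (hmt j), ← hR0, ← ENNReal.ofReal_toReal (hmt 0),
    ← ENNReal.ofReal_mul hnn]
  exact ENNReal.ofReal_le_ofReal hfin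

/-- the pointwise bound -/
lemma pointwise {q : ℝ} (hq : 0 ≤ q) {h : ℝ} (hh : 0 < h) (t : ℝ) :
    ENNReal.ofReal (h ^ (q - 1) / (h ^ q + |t| ^ q)) ≤
      ENNReal.ofReal h⁻¹ * ∑' j : ℕ, ENNReal.ofReal (4 ^ q * ((2 : ℝ) ^ (-q)) ^ j) *
        (if |t| ≤ 2 ^ j * h / 2 then 1 else 0) := by
  have hex : ∃ j : ℕ, |t| ≤ 2 ^ j * h / 2 := by
    obtain ⟨j, hj⟩ := pow_unbounded_of_one_lt (2 * |t| / h) (by norm_num : (1 : ℝ) < 2)
    refine ⟨j, ?_⟩
    rw [div_lt_iff₀ hh] at hj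
    linarith
  classical
  set j := Nat.find hex with hjdef
  have hj := Nat.find_spec hex
  rw [← hjdef] at hj
  refine le_trans ?_ (mul_le_mul_right (ENNReal.le_tsum j) _)
  rw [if_pos hj, mul_one, ← ENNReal.ofReal_mul (by positivity)]
  apply ENNReal.ofReal_le_ofReal
  have hhq : 0 < h ^ q := Real.rpow_pos_of_pos hh _
  have e1 : h ^ (q - 1) = h ^ q * h⁻¹ := by
    rw [Real.rpow_sub hh, Real.rpow_one, div_eq_mul_inv]
  rcases Nat.eq_zero_or_pos j with h0 | h0
  · rw [h0, pow_zero, mul_one, e1, div_le_iff₀ (den_pos hh t)]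
    have h4 : (1 : ℝ) ≤ 4 ^ q := Real.one_le_rpow (by norm_num) hq
    have : 0 ≤ |t| ^ q := Real.rpow_nonneg (abs_nonneg _) _
    have hi : 0 < h⁻¹ := inv_pos.2 hh
    calc h ^ q * h⁻¹ = h⁻¹ * 1 * h ^ q := by ring
      _ ≤ h⁻¹ * 4 ^ q * (h ^ q + |t| ^ q) := by
          apply mul_le_mul (mul_le_mul_of_nonneg_left h4 hi.le) (by linarith) hhq.le (by positivity)
  · obtain ⟨i, hi⟩ := Nat.exists_eq_succ_of_ne_zero h0.ne'
    have hlt : 2 ^ i * h / 2 < |t| := by
      by_contra hcon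
      have := Nat.find_min' hex (not_lt.1 hcon)
      rw [← hjdef] at this
      omega
    have ht : (2 ^ i * h / 2) ^ q ≤ |t| ^ q := Real.rpow_le_rpow (by positivity) hlt.le hq
    have e2 : (2 ^ i * h / 2) ^ q = (4 ^ q)⁻¹ * ((2 : ℝ) ^ q) ^ j * h ^ q := by
      have : (2 : ℝ) ^ i * h / 2 = (4 : ℝ)⁻¹ * 2 ^ j * h := by
        rw [hi, pow_succ]
        ring
      rw [this, Real.mul_rpow (by positivity) hh.le, Real.mul_rpow (by positivity) (by positivity),
        Real.inv_rpow (by norm_num), ← Real.rpow_natCast, ← Real.rpow_mul (by norm_num),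
        ← Real.rpow_natCast ((2 : ℝ) ^ q), ← Real.rpow_mul (by norm_num), mul_comm (j : ℝ) q]
    rw [e2] at ht
    rw [e1, div_le_iff₀ (den_pos hh t), Real.rpow_neg (by norm_num)]
    have h4 : (0 : ℝ) < 4 ^ q := by positivity
    have h2 : (0 : ℝ) < (2 : ℝ) ^ q := by positivity
    have hi : 0 < h⁻¹ := inv_pos.2 hh
    calc h ^ q * h⁻¹ = h⁻¹ * (4 ^ q * (((2 : ℝ) ^ q)⁻¹) ^ j) *
          ((4 ^ q)⁻¹ * ((2 : ℝ) ^ q) ^ j * h ^ q) := by
          rw [inv_pow]
          field_simp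
      _ ≤ h⁻¹ * (4 ^ q * (((2 : ℝ) ^ q)⁻¹) ^ j) * (h ^ q + |t| ^ q) :=
          mul_le_mul_of_nonneg_left (by linarith) (by positivity)

/-- **Self-improvement of `B_r`.** -/
theorem improve {r : ℝ} (hr : 1 ≤ r) {C : ℝ≥0} (hC : 1 ≤ C) {U : ℝ → ℝ} (hU : IsWeight U)
    (hB : BWith r C U) {q : ℝ} (hq : 0 ≤ q) (hqr : (2 : ℝ) ^ (r - q) * (1 - 1 / (8 * C)) < 1) :
    B q U := by
  set u : ℝ → ℝ≥0∞ := fun x => ENNReal.ofReal (U x) with hu
  have hC1 : (1 : ℝ) ≤ C := by exact_mod_cast hC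
  set θ : ℝ := 1 - 1 / (8 * C) with hθ
  have hθ0 : 0 ≤ θ := by
    rw [hθ, sub_nonneg, div_le_one (by positivity)]
    linarith
  have h4 : (0 : ℝ) < 4 ^ q := by positivity
  set ρ : ℝ := (2 : ℝ) ^ (r - q) * θ with hρ
  have hρ0 : 0 ≤ ρ := by positivity
  set D : ℝ := ∑' j : ℕ, 4 ^ q * (2 * C) * ρ ^ j with hD
  have hsum : Summable fun j : ℕ => 4 ^ q * (2 * C) * ρ ^ j :=
    (summable_geometric_of_lt_one hρ0 hqr).mul_left _
  have hD0 : 0 ≤ D := tsum_nonneg fun j => by positivity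
  refine ⟨D.toNNReal, fun c h hh => ?_⟩
  rw [int_eq q hU c h hh, ← hu]
  have e0 : ENNReal.ofReal (h ^ (q - 1)) * G q u c h =
      ∫⁻ x, u x * ENNReal.ofReal (h ^ (q - 1) / (h ^ q + |x - c| ^ q)) := by
    unfold G
    rw [← lintegral_const_mul' _ _ ENNReal.ofReal_ne_top]
    refine lintegral_congr fun x => ?_
    rw [mul_left_comm, ← ENNReal.ofReal_mul (by positivity), mul_one_div]
  rw [e0]
  have hmeas : ∀ j : ℕ, AEMeasurable (fun x => ENNReal.ofReal (4 ^ q * ((2 : ℝ) ^ (-q)) ^ j) *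
      (Icc (c - 2 ^ j * h / 2) (c + 2 ^ j * h / 2)).indicator u x) volume := fun j =>
    ((aem hU).indicator measurableSet_Icc).const_mul _
  calc ∫⁻ x, u x * ENNReal.ofReal (h ^ (q - 1) / (h ^ q + |x - c| ^ q))
      ≤ ∫⁻ x, ENNReal.ofReal h⁻¹ * ∑' j : ℕ, ENNReal.ofReal (4 ^ q * ((2 : ℝ) ^ (-q)) ^ j) *
        (Icc (c - 2 ^ j * h / 2) (c + 2 ^ j * h / 2)).indicator u x := by
        refine lintegral_mono fun x => ?_
        refine (mul_le_mul_right (pointwise hq hh (x - c)) _).trans (le_of_eq ?_)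
        rw [mul_left_comm, ← ENNReal.tsum_mul_left]
        congr 1
        refine tsum_congr fun j => ?_
        rw [mul_left_comm]
        congr 1
        by_cases hx : |x - c| ≤ 2 ^ j * h / 2
        · rw [if_pos hx, indicator_of_mem ((mem_iff x c (2 ^ j * h)).2 hx), mul_one]
        · rw [if_neg hx, indicator_of_notMem (fun h' => hx ((mem_iff x c (2 ^ j * h)).1 h')),
            mul_zero]
    _ = ENNReal.ofReal h⁻¹ * ∑' j : ℕ, ENNReal.ofReal (4 ^ q * ((2 : ℝ) ^ (-q)) ^ j) *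
          mass u c (2 ^ j * h) := by
        rw [lintegral_const_mul' _ _ ENNReal.ofReal_ne_top, lintegral_tsum hmeas]
        congr 1
        refine tsum_congr fun j => ?_
        rw [lintegral_const_mul' _ _ ENNReal.ofReal_ne_top, lintegral_indicator measurableSet_Icc]
        rfl
    _ ≤ ENNReal.ofReal h⁻¹ * ∑' j : ℕ, ENNReal.ofReal (4 ^ q * (2 * C) * ρ ^ j) * mass u c h := by
        refine mul_le_mul_right (ENNReal.tsum_le_tsum fun j => ?_) _
        refine (mul_le_mul_right (growth hr hU hB hC c h hh j) _).trans (le_of_eq ?_)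
        rw [← mul_assoc, ← ENNReal.ofReal_mul (by positivity)]
        congr 2
        have e5 : (2 : ℝ) ^ (r - q) = 2 ^ r * (2 ^ q)⁻¹ := by
          rw [Real.rpow_sub (by norm_num), div_eq_mul_inv]
        rw [hρ, hθ, e5, Real.rpow_neg (by norm_num), mul_pow, mul_pow, mul_pow]
        ring
    _ = _ := by
        rw [ENNReal.tsum_mul_right, ← ENNReal.ofReal_tsum_of_nonneg (fun j => by positivity) hsum,
          ← hD, ← mul_assoc, ENNReal.ofReal_inv_of_pos hh, mul_comm (ENNReal.ofReal h)⁻¹,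
          ← div_eq_mul_inv]
        rfl

/-- a larger exponent is a weaker condition -/
theorem mono {q r : ℝ} (hq : 0 ≤ q) (hqr : q ≤ r) {U : ℝ → ℝ} (hU : IsWeight U) (h : B q U) : B r U := by
  obtain ⟨C, hC⟩ := h
  refine ⟨2 * C, fun c h hh => ?_⟩
  have h1 := hC c h hh
  calc ∫⁻ x, ENNReal.ofReal (h ^ (r - 1) * U x / (h ^ r + |x - c| ^ r))
      ≤ ∫⁻ x, 2 * ENNReal.ofReal (h ^ (q - 1) * U x / (h ^ q + |x - c| ^ q)) := by
        refine lintegral_mono fun x => ?_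
        have h2 : (2 : ℝ≥0∞) = ENNReal.ofReal 2 := by simp
        rw [h2, ← ENNReal.ofReal_mul (by norm_num)]
        apply ENNReal.ofReal_le_ofReal
        have h3 := den_pos (r := r) hh (x - c)
        have h4 := den_pos (r := q) hh (x - c)
        rw [← mul_div_assoc, div_le_div_iff₀ h3 h4]
        set t := |x - c| with ht
        have ht0 : 0 ≤ t := abs_nonneg _
        have hhq : 0 < h ^ q := Real.rpow_pos_of_pos hh _
        have hhr : 0 < h ^ r := Real.rpow_pos_of_pos hh _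
        have htq : 0 ≤ t ^ q := Real.rpow_nonneg ht0 _
        have htr : 0 ≤ t ^ r := Real.rpow_nonneg ht0 _
        have e1 : h ^ (r - 1) = h ^ r * h⁻¹ := by
          rw [Real.rpow_sub hh, Real.rpow_one, div_eq_mul_inv]
        have e2 : h ^ (q - 1) = h ^ q * h⁻¹ := by
          rw [Real.rpow_sub hh, Real.rpow_one, div_eq_mul_inv]
        have e3 : h ^ r * t ^ q ≤ h ^ q * h ^ r + h ^ q * t ^ r := by
          rcases le_total t h with hle | hle
          · have := Real.rpow_le_rpow ht0 hle hq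
            nlinarith [mul_le_mul_of_nonneg_left this hhr.le, mul_nonneg hhq.le htr]
          · have h5 : h ^ r = h ^ q * h ^ (r - q) := by
              rw [← Real.rpow_add hh]; congr 1; ring
            have ht1 : 0 < t := lt_of_lt_of_le hh hle
            have h6 : t ^ r = t ^ q * t ^ (r - q) := by
              rw [← Real.rpow_add ht1]; congr 1; ring
            have h7 : h ^ (r - q) ≤ t ^ (r - q) := Real.rpow_le_rpow hh.le hle (by linarith)
            calc h ^ r * t ^ q = h ^ q * t ^ q * h ^ (r - q) := by rw [h5]; ring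
              _ ≤ h ^ q * t ^ q * t ^ (r - q) := mul_le_mul_of_nonneg_left h7 (by positivity)
              _ = h ^ q * t ^ r := by rw [h6]; ring
              _ ≤ _ := by nlinarith
        have hi : 0 ≤ U x * h⁻¹ := mul_nonneg (hU.1 x) (inv_nonneg.2 hh.le)
        rw [e1, e2]
        calc h ^ r * h⁻¹ * U x * (h ^ q + t ^ q) = (U x * h⁻¹) * (h ^ q * h ^ r + h ^ r * t ^ q) := by
              ring
          _ ≤ (U x * h⁻¹) * (2 * h ^ q * (h ^ r + t ^ r)) := by
              apply mul_le_mul_of_nonneg_left _ hi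
              nlinarith [mul_nonneg hhq.le htr]
          _ = 2 * (h ^ q * h⁻¹ * U x) * (h ^ r + t ^ r) := by ring
    _ = 2 * ∫⁻ x, ENNReal.ofReal (h ^ (q - 1) * U x / (h ^ q + |x - c| ^ q)) :=
        lintegral_const_mul' _ _ (by norm_num)
    _ ≤ 2 * (C / ENNReal.ofReal h * ∫⁻ x in Icc (c - h / 2) (c + h / 2), ENNReal.ofReal (U x)) :=
        mul_le_mul_right h1 _
    _ = _ := by
        push_cast
        rw [← mul_assoc, mul_div_assoc]

/-- `B_r` is the union of the classes `B_q`, `1 < q < r`. -/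
theorem open_ended {r : ℝ} (hr : 1 < r) {U : ℝ → ℝ} (hU : IsWeight U) :
    B r U ↔ ∃ q : ℝ, 1 < q ∧ q < r ∧ B q U := by
  constructor
  · rintro ⟨C, hC⟩
    have hC' : BWith r (max C 1) U := fun c h hh => by
      refine (hC c h hh).trans (mul_le_mul_left ?_ _)
      exact ENNReal.div_le_div_right (by exact_mod_cast le_max_left C 1) _
    have hC1 : (1 : ℝ≥0) ≤ max C 1 := le_max_right _ _
    set θ : ℝ := 1 - 1 / (8 * ((max C 1 : ℝ≥0) : ℝ)) with hθ
    have hθ1 : θ < 1 := by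
      have h1 : (1 : ℝ) ≤ ((max C 1 : ℝ≥0) : ℝ) := by exact_mod_cast hC1
      have : 0 < 1 / (8 * ((max C 1 : ℝ≥0) : ℝ)) := by positivity
      linarith
    have hcont : ContinuousAt (fun q : ℝ => (2 : ℝ) ^ (r - q) * θ) r := by
      have : Continuous fun q : ℝ => (2 : ℝ) ^ (r - q) * θ :=
        (Real.continuous_const_rpow (by norm_num)).comp (continuous_const.sub continuous_id) |>.mul
          continuous_const
      exact this.continuousAt
    have h1 : ∀ᶠ q in 𝓝[<] r, (2 : ℝ) ^ (r - q) * θ < 1 := by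
      have : ∀ᶠ q in 𝓝 r, (2 : ℝ) ^ (r - q) * θ < 1 :=
        hcont.eventually_lt continuousAt_const (by simpa using hθ1)
      exact this.filter_mono nhdsWithin_le_nhds
    have h2 : ∀ᶠ q in 𝓝[<] r, 1 < q := (lt_mem_nhds hr).filter_mono nhdsWithin_le_nhds
    have h3 : ∀ᶠ q in 𝓝[<] r, q < r := self_mem_nhdsWithin
    obtain ⟨q, hq1, hq2, hq3⟩ := (h1.and (h2.and h3)).exists
    exact ⟨q, hq2, hq3, improve hr.le hC1 hU hC' (by linarith) hq1⟩
  · rintro ⟨q, h1, h2, h3⟩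
    exact mono (by linarith) h2.le hU h3

/-- **The necessary condition and the sufficient condition for `(∗)` coincide.** -/
theorem result :
    -- (1) self-improvement of `B_r`, with a quantitative range
    (∀ (r : ℝ) (C : ℝ≥0) (U : ℝ → ℝ), 1 ≤ r → 1 ≤ C → IsWeight U → BWith r C U →
      ∀ q : ℝ, 0 ≤ q → (2 : ℝ) ^ (r - q) * (1 - 1 / (8 * C)) < 1 → B q U) ∧
    -- (2) `B_r` is the union of the `B_q`, `1 < q < r`
    (∀ (r : ℝ) (U : ℝ → ℝ), 1 < r → IsWeight U → (B r U ↔ ∃ q : ℝ, 1 < q ∧ q < r ∧ B q U)) ∧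
    ∀ lam p : ℝ, 1 < lam → lam ≤ 2 → 2 / lam < p → p < 2 →
      -- (3) the class of the necessary condition is the class of the sufficient condition
      (∀ U : ℝ → ℝ, IsWeight U → ((A p U ∧ B (lam * p / 2) U) ↔
        (A p U ∧ ∃ q : ℝ, 1 < q ∧ q < min (lam * p / 2) lam ∧ B q U))) ∧
      -- (4) with the known necessity and the known sufficiency: the answer to the question
      ((∀ U : ℝ → ℝ, IsWeight U → Star lam p U → A p U ∧ B (lam * p / 2) U) →
        (∀ U : ℝ → ℝ, IsWeight U → ∀ q : ℝ, 1 < q → q < min (lam * p / 2) lam →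
          A p U → B q U → Star lam p U) →
        ∀ U : ℝ → ℝ, IsWeight U → (Star lam p U ↔ A p U ∧ B (lam * p / 2) U)) := by
  have main : ∀ lam p : ℝ, 1 < lam → lam ≤ 2 → 2 / lam < p → p < 2 →
      ∀ U : ℝ → ℝ, IsWeight U → ((A p U ∧ B (lam * p / 2) U) ↔
        (A p U ∧ ∃ q : ℝ, 1 < q ∧ q < min (lam * p / 2) lam ∧ B q U)) := by
    intro lam p h1 h2 h3 h4 U hU
    have h5 : 1 < lam * p / 2 := by
      rw [div_lt_iff₀ (by linarith)] at h3
      linarith
    have h6 : lam * p / 2 < lam := by nlinarith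
    rw [min_eq_left h6.le, open_ended h5 hU]
  refine ⟨fun r C U h1 h2 hU hB q hq hqr => improve h1 h2 hU hB hq hqr,
    fun r U hr hU => open_ended hr hU, fun lam p h1 h2 h3 h4 => ⟨main lam p h1 h2 h3 h4, ?_⟩⟩
  intro hN hS U hU
  refine ⟨hN U hU, fun h => ?_⟩
  obtain ⟨hA, q, hq1, hq2, hB⟩ := (main lam p h1 h2 h3 h4 U hU).1 h
  exact hS U hU q hq1 hq2 hA hB

end Pool.Agent.Results.MP_842e08_an.ClassesCoincide
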